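import Pool.Agent.Helper31.BQ.Stmts2

/-!
# BQ, row SL: the scale on `L^2 (0, 1]`
-/

set_option autoImplicit false

namespace Pool.Agent.Helper82.BQ

open Filter Topology MeasureTheory Set Pool.Agent.Helper31.BQ

/-- the measure -/
noncomputable abbrev mu1 : Measure ℝ := volume.restrict (Set.Ioc (0 : ℝ) 1)

/-- the Hilbert space -/
abbrev HH : Type := Lp ℝ 2 mu1

theorem sl_memLp (m : ℝ → ℝ) (hm : Measurable m) (C : ℝ) (hC : ∀ t ∈ Ioc (0 : ℝ) 1, |m t| ≤ C)
    (f : HH) : MemLp (fun t => m t * f t) 2 mu1 := by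
  refine MemLp.of_le_mul (c := C) (Lp.memLp f) ?_ ?_
  · exact hm.aestronglyMeasurable.mul (Lp.aestronglyMeasurable f)
  · rw [ae_restrict_iff' measurableSet_Ioc]
    refine Eventually.of_forall fun t ht => ?_
    rw [norm_mul]
    exact mul_le_mul_of_nonneg_right (hC t ht) (norm_nonneg _)

/-- multiplication by a bounded function -/
noncomputable def Mop (m : ℝ → ℝ) (hm : Measurable m) (C : ℝ)
    (hC : ∀ t ∈ Ioc (0 : ℝ) 1, |m t| ≤ C) : HH →L[ℝ] HH :=
  LinearMap.mkContinuous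
    { toFun := fun f => (sl_memLp m hm C hC f).toLp _
      map_add' := by
        intro f g
        rw [← MemLp.toLp_add]
        apply MemLp.toLp_congr
        filter_upwards [Lp.coeFn_add f g] with t ht
        rw [ht]
        simp only [Pi.add_apply]
        ring
      map_smul' := by
        intro c f
        rw [RingHom.id_apply, ← MemLp.toLp_const_smul]
        apply MemLp.toLp_congr
        filter_upwards [Lp.coeFn_smul c f] with t ht
        rw [ht]
        simp only [Pi.smul_apply, smul_eq_mul]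
        ring } C (by
        intro f
        apply Lp.norm_le_mul_norm_of_ae_le_mul
        have h1 := (sl_memLp m hm C hC f).coeFn_toLp
        have h2 : ∀ᵐ t ∂mu1, t ∈ Ioc (0 : ℝ) 1 := ae_restrict_mem measurableSet_Ioc
        filter_upwards [h1, h2] with t ht ht2
        show ‖((sl_memLp m hm C hC f).toLp _ : HH) t‖ ≤ _
        rw [ht, norm_mul]
        exact mul_le_mul_of_nonneg_right (hC t ht2) (norm_nonneg _))

theorem Mop_coe (m : ℝ → ℝ) (hm : Measurable m) (C : ℝ)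
    (hC : ∀ t ∈ Ioc (0 : ℝ) 1, |m t| ≤ C) (f : HH) :
    (Mop m hm C hC f : ℝ → ℝ) =ᵐ[mu1] fun t => m t * f t :=
  (sl_memLp m hm C hC f).coeFn_toLp

theorem Mop_norm (m : ℝ → ℝ) (hm : Measurable m) (C : ℝ)
    (hC : ∀ t ∈ Ioc (0 : ℝ) 1, |m t| ≤ C) (f : HH) : ‖Mop m hm C hC f‖ ≤ C * ‖f‖ := by
  apply Lp.norm_le_mul_norm_of_ae_le_mul
  have h2 : ∀ᵐ t ∂mu1, t ∈ Ioc (0 : ℝ) 1 := ae_restrict_mem measurableSet_Ioc
  filter_upwards [Mop_coe m hm C hC f, h2] with t ht ht2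
  rw [ht, norm_mul]
  exact mul_le_mul_of_nonneg_right (hC t ht2) (norm_nonneg _)

theorem Mop_inv (m m' : ℝ → ℝ) (hm : Measurable m) (hm' : Measurable m') (C C' : ℝ)
    (hC : ∀ t ∈ Ioc (0 : ℝ) 1, |m t| ≤ C) (hC' : ∀ t ∈ Ioc (0 : ℝ) 1, |m' t| ≤ C')
    (h : ∀ t, m t * m' t = 1) (f : HH) : Mop m hm C hC (Mop m' hm' C' hC' f) = f := by
  apply Lp.ext
  filter_upwards [Mop_coe m hm C hC (Mop m' hm' C' hC' f), Mop_coe m' hm' C' hC' f] with t h1 h2
  rw [h1, h2, ← mul_assoc, h, one_mul]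

theorem Mop_self (m : ℝ → ℝ) (hm : Measurable m) (C : ℝ)
    (hC : ∀ t ∈ Ioc (0 : ℝ) 1, |m t| ≤ C) (f g : HH) :
    inner ℝ (Mop m hm C hC f) g = inner ℝ f (Mop m hm C hC g) := by
  rw [L2.inner_def, L2.inner_def]
  apply integral_congr_ae
  filter_upwards [Mop_coe m hm C hC f, Mop_coe m hm C hC g] with t h1 h2
  rw [h1, h2]
  simp only [RCLike.inner_apply, conj_trivial]
  ring

/-- the intervals -/
def II (n i : ℕ) : Set ℝ := Ioc ((i : ℝ) / (n + 1)) (((i : ℝ) + 1) / (n + 1))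

theorem II_meas (n i : ℕ) : MeasurableSet (II n i) := measurableSet_Ioc

theorem II_fin (n i : ℕ) : mu1 (II n i) ≠ ⊤ := measure_ne_top _ _

/-- the indicator -/
noncomputable def ch (n i : ℕ) : HH := indicatorConstLp 2 (II_meas n i) (II_fin n i) (1 : ℝ)

theorem ch_coe (n i : ℕ) : (ch n i : ℝ → ℝ) =ᵐ[mu1] (II n i).indicator fun _ => (1 : ℝ) :=
  indicatorConstLp_coeFn

theorem II_real (n i : ℕ) : mu1.real (II n i) ≤ 1 / ((n : ℝ) + 1) := by
  have h1 : mu1 (II n i) ≤ ENNReal.ofReal (1 / ((n : ℝ) + 1)) := by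
    calc mu1 (II n i) ≤ volume (II n i) := Measure.restrict_apply_le _ _
      _ = ENNReal.ofReal (((i : ℝ) + 1) / (n + 1) - (i : ℝ) / (n + 1)) := Real.volume_Ioc
      _ = ENNReal.ofReal (1 / ((n : ℝ) + 1)) := by
          congr 1
          rw [← sub_div]
          congr 1
          ring
  rw [measureReal_def]
  exact ENNReal.toReal_le_of_le_ofReal (by positivity) h1

theorem ch_norm (n i : ℕ) : ‖ch n i‖ ^ 2 ≤ 1 / ((n : ℝ) + 1) := by
  have h1 : inner ℝ (ch n i) (ch n i) = mu1.real (II n i ∩ II n i) :=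
    L2.real_inner_indicatorConstLp_one_indicatorConstLp_one (II_meas n i) (II_meas n i)
  rw [real_inner_self_eq_norm_sq, inter_self] at h1
  rw [h1]
  exact II_real n i

theorem II_disj (n i j : ℕ) (h : i ≠ j) : Disjoint (II n i) (II n j) := by
  rw [Set.disjoint_left]
  intro t h1 h2
  have hn : (0 : ℝ) < (n : ℝ) + 1 := by positivity
  obtain ⟨a1, b1⟩ := h1
  obtain ⟨a2, b2⟩ := h2
  rw [div_lt_iff₀ hn] at a1 a2
  rw [le_div_iff₀ hn] at b1 b2
  rcases lt_or_gt_of_ne h with h | h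
  · have : (i : ℝ) + 1 ≤ j := by exact_mod_cast h
    linarith
  · have : (j : ℝ) + 1 ≤ i := by exact_mod_cast h
    linarith

/-- the multiplied indicators are orthogonal -/
theorem ch_orth (m : ℝ → ℝ) (hm : Measurable m) (C : ℝ)
    (hC : ∀ t ∈ Ioc (0 : ℝ) 1, |m t| ≤ C) (n i j : ℕ) (h : i ≠ j) :
    inner ℝ (Mop m hm C hC (ch n i)) (Mop m hm C hC (ch n j)) = 0 := by
  rw [L2.inner_def, integral_eq_zero_of_ae]
  filter_upwards [Mop_coe m hm C hC (ch n i), Mop_coe m hm C hC (ch n j), ch_coe n i,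
    ch_coe n j] with t h1 h2 h3 h4
  rw [h1, h2, h3, h4]
  by_cases h5 : t ∈ II n i
  · have h6 : t ∉ II n j := fun h7 => Set.disjoint_left.1 (II_disj n i j h) h5 h7
    rw [Set.indicator_of_notMem h6]
    simp
  · rw [Set.indicator_of_notMem h5]
    simp

theorem ch_mul_norm (m : ℝ → ℝ) (hm : Measurable m) (C : ℝ)
    (hC : ∀ t ∈ Ioc (0 : ℝ) 1, |m t| ≤ C) (n i : ℕ) (c : ℝ)
    (hc : ∀ t ∈ II n i, |m t| ≤ c) : ‖Mop m hm C hC (ch n i)‖ ≤ c * ‖ch n i‖ := by
  apply Lp.norm_le_mul_norm_of_ae_le_mul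
  filter_upwards [Mop_coe m hm C hC (ch n i), ch_coe n i] with t h1 h3
  rw [h1, h3]
  by_cases h5 : t ∈ II n i
  · rw [Set.indicator_of_mem h5, norm_mul]
    exact mul_le_mul_of_nonneg_right (hc t h5) (norm_nonneg _)
  · rw [Set.indicator_of_notMem h5]
    simp

/-- blocks -/
theorem block_norm {H : Type} [NormedAddCommGroup H] [InnerProductSpace ℝ H] (N : ℕ)
    (a b : ℕ → H) (r : ℝ) (hr : 0 ≤ r) (ha : ∀ i j, i ≠ j → inner ℝ (a i) (a j) = 0)
    (hb : ∀ i j, i ≠ j → inner ℝ (b i) (b j) = 0) (hab : ∀ i, ‖a i‖ * ‖b i‖ ≤ r) (x : H) :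
    ‖∑ i ∈ Finset.range N, inner ℝ (a i) x • b i‖ ≤ r * ‖x‖ := by
  classical
  have h1 : ‖∑ i ∈ Finset.range N, inner ℝ (a i) x • b i‖ ^ 2 =
      ∑ i ∈ Finset.range N, (inner ℝ (a i) x) ^ 2 * ‖b i‖ ^ 2 := by
    rw [← real_inner_self_eq_norm_sq, sum_inner]
    refine Finset.sum_congr rfl fun i hi => ?_
    rw [inner_sum, Finset.sum_eq_single i]
    · rw [inner_smul_left, inner_smul_right, real_inner_self_eq_norm_sq]
      simp only [conj_trivial]
      ring
    · intro j _ hj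
      rw [inner_smul_left, inner_smul_right, hb i j (Ne.symm hj)]
      simp
    · intro h
      exact absurd hi h
  -- the nonzero vectors
  set s := (Finset.range N).filter fun i => a i ≠ 0 with hs
  have h2 : ∑ i ∈ Finset.range N, (inner ℝ (a i) x) ^ 2 * ‖b i‖ ^ 2 ≤ r ^ 2 * ‖x‖ ^ 2 := by
    have h3 : ∑ i ∈ Finset.range N, (inner ℝ (a i) x) ^ 2 * ‖b i‖ ^ 2 =
        ∑ i ∈ s, (inner ℝ (a i) x) ^ 2 * ‖b i‖ ^ 2 := by
      rw [hs, Finset.sum_filter]
      refine Finset.sum_congr rfl fun i _ => ?_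
      by_cases h : a i = 0
      · rw [if_neg (not_not.2 h), h, inner_zero_left]
        ring
      · rw [if_pos h]
    rw [h3]
    have hon : Orthonormal ℝ fun i : s => (‖a i‖)⁻¹ • a i := by
      constructor
      · intro i
        have hi : a i ≠ 0 := (Finset.mem_filter.1 i.2).2
        rw [norm_smul, norm_inv, norm_norm, inv_mul_cancel₀ (norm_ne_zero_iff.2 hi)]
      · intro i j hij
        have : (i : ℕ) ≠ j := fun h => hij (Subtype.ext h)
        show inner ℝ ((‖a i‖)⁻¹ • a i) ((‖a j‖)⁻¹ • a j) = 0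
        rw [inner_smul_left, inner_smul_right, ha _ _ this]
        simp
    have h4 := hon.sum_inner_products_le (s := Finset.univ) x
    have h5 : ∑ i ∈ s, (inner ℝ (a i) x) ^ 2 * ‖b i‖ ^ 2 =
        ∑ i : s, (inner ℝ (a i) x) ^ 2 * ‖b i‖ ^ 2 := by
      rw [← Finset.sum_coe_sort s]
    rw [h5]
    calc ∑ i : s, (inner ℝ (a i) x) ^ 2 * ‖b i‖ ^ 2
        ≤ ∑ i : s, r ^ 2 * ‖inner ℝ ((‖a i‖)⁻¹ • a i) x‖ ^ 2 := by
          refine Finset.sum_le_sum fun i _ => ?_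
          have hi : a i ≠ 0 := (Finset.mem_filter.1 i.2).2
          have hi' : 0 < ‖a i‖ := norm_pos_iff.2 hi
          rw [inner_smul_left, Real.norm_eq_abs, sq_abs]
          simp only [conj_trivial]
          have h6 : ‖b i‖ ≤ r * (‖a i‖)⁻¹ := by
            rw [← div_eq_mul_inv, le_div_iff₀ hi', mul_comm]
            exact hab i
          have h7 : ‖b i‖ ^ 2 ≤ (r * (‖a i‖)⁻¹) ^ 2 := pow_le_pow_left₀ (norm_nonneg _) h6 2
          calc (inner ℝ (a i) x) ^ 2 * ‖b i‖ ^ 2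
              ≤ (inner ℝ (a i) x) ^ 2 * (r * (‖a i‖)⁻¹) ^ 2 :=
                mul_le_mul_of_nonneg_left h7 (sq_nonneg _)
            _ = _ := by ring
      _ = r ^ 2 * ∑ i : s, ‖inner ℝ ((‖a i‖)⁻¹ • a i) x‖ ^ 2 := by rw [Finset.mul_sum]
      _ ≤ r ^ 2 * ‖x‖ ^ 2 := mul_le_mul_of_nonneg_left h4 (sq_nonneg _)
  have h8 : ‖∑ i ∈ Finset.range N, inner ℝ (a i) x • b i‖ ^ 2 ≤ (r * ‖x‖) ^ 2 := by
    rw [h1, mul_pow]
    exact h2
  exact le_of_sq_le_sq h8 (mul_nonneg hr (norm_nonneg _))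

/-- the shifted averages -/
noncomputable def Sop (n : ℕ) : HH →L[ℝ] HH :=
  ∑ i ∈ Finset.range (n + 1), (innerSL ℝ (ch n i)).smulRight (((n : ℝ) + 1) • ch n (i + 2))

theorem Sop_apply (n : ℕ) (x : HH) : Sop n x =
    ∑ i ∈ Finset.range (n + 1), inner ℝ (ch n i) x • (((n : ℝ) + 1) • ch n (i + 2)) := by
  unfold Sop
  rw [_root_.sum_apply]
  rfl

theorem ch_mul_le (n i j : ℕ) : ‖ch n i‖ * ‖ch n j‖ ≤ 1 / ((n : ℝ) + 1) := by
  have h1 := ch_norm n i
  have h2 := ch_norm n j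
  nlinarith [sq_nonneg (‖ch n i‖ - ‖ch n j‖)]

theorem ch_orth0 (n i j : ℕ) (h : i ≠ j) : inner ℝ (ch n i) (ch n j) = 0 := by
  have h1 : inner ℝ (ch n i) (ch n j) = mu1.real (II n i ∩ II n j) :=
    L2.real_inner_indicatorConstLp_one_indicatorConstLp_one (II_meas n i) (II_meas n j)
  rw [h1, (II_disj n i j h).inter_eq]
  simp

theorem Sop_norm (n : ℕ) (x : HH) : ‖Sop n x‖ ≤ ‖x‖ := by
  rw [Sop_apply]
  have h := block_norm (n + 1) (fun i => ch n i) (fun i => ((n : ℝ) + 1) • ch n (i + 2)) 1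
    zero_le_one (fun i j hij => ch_orth0 n i j hij)
    (fun i j hij => by
      show inner ℝ (((n : ℝ) + 1) • ch n (i + 2)) (((n : ℝ) + 1) • ch n (j + 2)) = 0
      rw [inner_smul_left, inner_smul_right, ch_orth0 n (i + 2) (j + 2) (by omega)]
      simp)
    (fun i => by
      show ‖ch n i‖ * ‖((n : ℝ) + 1) • ch n (i + 2)‖ ≤ 1
      have hn : (0 : ℝ) < (n : ℝ) + 1 := by positivity
      rw [norm_smul, Real.norm_of_nonneg hn.le]
      have := ch_mul_le n i (i + 2)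
      calc ‖ch n i‖ * (((n : ℝ) + 1) * ‖ch n (i + 2)‖)
          = ((n : ℝ) + 1) * (‖ch n i‖ * ‖ch n (i + 2)‖) := by ring
        _ ≤ ((n : ℝ) + 1) * (1 / ((n : ℝ) + 1)) := mul_le_mul_of_nonneg_left this hn.le
        _ = 1 := by field_simp) x
  rw [one_mul] at h
  exact h

/-- the shifted averages of a function -/
noncomputable def sf (g : ℝ → ℝ) (n : ℕ) (t : ℝ) : ℝ :=
  ∑ i ∈ Finset.range (n + 1), (∫ s in II n i, g s ∂mu1) *
    (((n : ℝ) + 1) * (II n (i + 2)).indicator (fun _ => (1 : ℝ)) t)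

theorem sum_coe (N : ℕ) (c : ℕ → ℝ) (v : ℕ → HH) :
    ((∑ i ∈ Finset.range N, c i • v i : HH) : ℝ → ℝ) =ᵐ[mu1]
      fun t => ∑ i ∈ Finset.range N, c i * v i t := by
  induction N with
  | zero =>
    simp only [Finset.range_zero, Finset.sum_empty]
    exact Lp.coeFn_zero _ _ _
  | succ N ih =>
    rw [Finset.sum_range_succ]
    filter_upwards [ih, Lp.coeFn_add (∑ i ∈ Finset.range N, c i • v i) (c N • v N),
      Lp.coeFn_smul (c N) (v N)] with t h1 h2 h3
    rw [h2, Pi.add_apply, h1, h3, Finset.sum_range_succ]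
    rfl

theorem sf_coe (y : HH) (g : ℝ → ℝ) (hy : (y : ℝ → ℝ) =ᵐ[mu1] g) (n : ℕ) :
    (Sop n y : ℝ → ℝ) =ᵐ[mu1] sf g n := by
  rw [Sop_apply]
  have h0 : ∑ i ∈ Finset.range (n + 1), inner ℝ (ch n i) y • (((n : ℝ) + 1) • ch n (i + 2)) =
      ∑ i ∈ Finset.range (n + 1), ((∫ s in II n i, g s ∂mu1) * ((n : ℝ) + 1)) • ch n (i + 2) := by
    refine Finset.sum_congr rfl fun i _ => ?_
    rw [smul_smul]
    congr 2
    have h1 : inner ℝ (ch n i) y = ∫ s in II n i, y s ∂mu1 :=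
      L2.inner_indicatorConstLp_one (𝕜 := ℝ) (II_meas n i) (II_fin n i) y
    rw [h1]
    apply setIntegral_congr_ae (II_meas n i)
    filter_upwards [hy] with t ht _
    exact ht
  rw [h0]
  have h2 : ∀ᵐ t ∂mu1, ∀ i : ℕ, ch n i t = (II n i).indicator (fun _ => (1 : ℝ)) t :=
    ae_all_iff.2 fun i => ch_coe n i
  filter_upwards [sum_coe (n + 1) (fun i => (∫ s in II n i, g s ∂mu1) * ((n : ℝ) + 1))
    (fun i => ch n (i + 2)), h2] with t h3 h4
  rw [h3]
  unfold sf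
  refine Finset.sum_congr rfl fun i _ => ?_
  rw [h4]
  ring

theorem sf_val (g : ℝ → ℝ) (n : ℕ) (t : ℝ) (i : ℕ) (hi : i < n + 1) (ht : t ∈ II n (i + 2)) :
    sf g n t = (∫ s in II n i, g s ∂mu1) * ((n : ℝ) + 1) := by
  unfold sf
  rw [Finset.sum_eq_single i]
  · rw [Set.indicator_of_mem ht, mul_one]
  · intro j _ hj
    have : t ∉ II n (j + 2) := fun h => Set.disjoint_left.1
      (II_disj n (j + 2) (i + 2) (by omega)) h ht
    rw [Set.indicator_of_notMem this]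
    ring
  · intro h
    exact absurd (Finset.mem_range.2 hi) h

theorem int_le (g : ℝ → ℝ) (n i : ℕ) (C : ℝ) (hC : ∀ s ∈ II n i, |g s| ≤ C) (hC0 : 0 ≤ C) :
    |∫ s in II n i, g s ∂mu1| * ((n : ℝ) + 1) ≤ C := by
  have hn : (0 : ℝ) < (n : ℝ) + 1 := by positivity
  have h1 : ‖∫ s in II n i, g s ∂mu1‖ ≤ C * mu1.real (II n i) :=
    norm_setIntegral_le_of_norm_le_const (measure_lt_top _ _) hC
  rw [Real.norm_eq_abs] at h1
  calc |∫ s in II n i, g s ∂mu1| * ((n : ℝ) + 1) ≤ C * mu1.real (II n i) * ((n : ℝ) + 1) :=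
        mul_le_mul_of_nonneg_right h1 hn.le
    _ ≤ C * (1 / ((n : ℝ) + 1)) * ((n : ℝ) + 1) := by
        apply mul_le_mul_of_nonneg_right _ hn.le
        exact mul_le_mul_of_nonneg_left (II_real n i) hC0
    _ = C := by field_simp

theorem sf_bound (g : ℝ → ℝ) (C : ℝ) (hC : ∀ s, |g s| ≤ C) (n : ℕ) (t : ℝ) : |sf g n t| ≤ C := by
  have hC0 : 0 ≤ C := (abs_nonneg _).trans (hC 0)
  by_cases h : ∃ i, i < n + 1 ∧ t ∈ II n (i + 2)
  · obtain ⟨i, hi, ht⟩ := h
    rw [sf_val g n t i hi ht, abs_mul, abs_of_pos (show (0 : ℝ) < (n : ℝ) + 1 by positivity)]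
    exact int_le g n i C (fun s _ => hC s) hC0
  · push Not at h
    have : sf g n t = 0 := by
      unfold sf
      refine Finset.sum_eq_zero fun i hi => ?_
      rw [Set.indicator_of_notMem (h i (Finset.mem_range.1 hi))]
      ring
    rw [this, abs_zero]
    exact hC0

theorem II_mass (n i : ℕ) (hi : i < n + 1) : mu1.real (II n i) = 1 / ((n : ℝ) + 1) := by
  have hn : (0 : ℝ) < (n : ℝ) + 1 := by positivity
  have hsub : II n i ⊆ Ioc (0 : ℝ) 1 := by
    intro t ht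
    refine ⟨lt_of_le_of_lt (by positivity) ht.1, ht.2.trans ?_⟩
    rw [div_le_one hn]
    have : i + 1 ≤ n + 1 := hi
    exact_mod_cast this
  rw [measureReal_def, Measure.restrict_apply (II_meas n i), Set.inter_eq_left.2 hsub]
  unfold II
  rw [Real.volume_Ioc, ← sub_div]
  have : ((i : ℝ) + 1 - i) / ((n : ℝ) + 1) = 1 / ((n : ℝ) + 1) := by
    congr 1
    ring
  rw [this, ENNReal.toReal_ofReal (by positivity)]

theorem sf_lim (g : ℝ → ℝ) (hg : Continuous g) (t : ℝ) (ht : t ∈ Ioc (0 : ℝ) 1) :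
    Tendsto (fun n => sf g n t) atTop (𝓝 (g t)) := by
  rw [Metric.tendsto_atTop]
  intro ε hε
  obtain ⟨d, hd, h1⟩ := Metric.continuousAt_iff.1 (hg.continuousAt (x := t)) (ε / 2)
    (by positivity)
  obtain ⟨n0, hn0⟩ := exists_nat_gt (3 / d + 2 / t)
  refine ⟨n0, fun n hn => ?_⟩
  have ht0 : 0 < t := ht.1
  have hnp : (0 : ℝ) < (n : ℝ) + 1 := by positivity
  have hnn : (n0 : ℝ) ≤ n := by exact_mod_cast hn
  have h3 : 3 / d < (n : ℝ) + 1 := by
    have : 0 < 2 / t := by positivity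
    linarith
  have h2 : 2 / t < (n : ℝ) + 1 := by
    have : 0 < 3 / d := by positivity
    linarith
  rw [div_lt_iff₀ ht0] at h2
  rw [div_lt_iff₀ hd] at h3
  -- the interval of `t`
  set c := ⌈t * ((n : ℝ) + 1)⌉₊ with hc
  have hc1 : t * ((n : ℝ) + 1) ≤ c := Nat.le_ceil _
  have hc2 : (c : ℝ) < t * ((n : ℝ) + 1) + 1 := Nat.ceil_lt_add_one (by positivity)
  have hc3 : 3 ≤ c := by
    have : (2 : ℝ) < c := by linarith
    exact_mod_cast this
  have hc4 : c ≤ n + 1 := by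
    apply Nat.ceil_le.2
    push_cast
    have := mul_le_mul_of_nonneg_right ht.2 hnp.le
    linarith
  obtain ⟨i, hi⟩ : ∃ i, c = i + 3 := ⟨c - 3, by omega⟩
  have hi1 : i < n + 1 := by omega
  have hcr : (c : ℝ) = (i : ℝ) + 3 := by
    rw [hi]
    push_cast
    ring
  have hmem : t ∈ II n (i + 2) := by
    constructor
    · rw [div_lt_iff₀ hnp]
      push_cast
      linarith
    · rw [le_div_iff₀ hnp]
      push_cast
      linarith
  rw [Real.dist_eq, sf_val g n t i hi1 hmem]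
  have hint : Integrable g mu1 → (∫ s in II n i, g s ∂mu1) * ((n : ℝ) + 1) - g t =
      (∫ s in II n i, (g s - g t) ∂mu1) * ((n : ℝ) + 1) := by
    intro hgi
    rw [integral_sub hgi.integrableOn (integrable_const _), setIntegral_const, II_mass n i hi1,
      smul_eq_mul]
    field_simp
  have hgi : Integrable g mu1 := by
    have : IntegrableOn g (Icc (0 : ℝ) 1) volume := hg.continuousOn.integrableOn_compact isCompact_Icc
    exact this.mono_set Ioc_subset_Icc_self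
  rw [hint hgi, abs_mul, abs_of_pos hnp]
  refine lt_of_le_of_lt (int_le (fun s => g s - g t) n i (ε / 2) ?_ (by positivity)) (by linarith)
  intro s hs
  have h5 : dist s t < d := by
    rw [Real.dist_eq, abs_lt]
    have h6 := hs.1
    have h7 := hs.2
    have h8 := hmem.1
    have h9 := hmem.2
    rw [div_lt_iff₀ hnp] at h6 h8
    rw [le_div_iff₀ hnp] at h7 h9
    push_cast at h8 h9
    constructor
    · by_contra hcon
      push Not at hcon
      nlinarith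
    · by_contra hcon
      push Not at hcon
      nlinarith
  have h6 := h1 h5
  rw [Real.dist_eq] at h6
  exact h6.le

theorem Sop_dense (g : BoundedContinuousFunction ℝ ℝ) :
    Tendsto (fun n => Sop n (BoundedContinuousFunction.toLp 2 mu1 ℝ g)) atTop
      (𝓝 (BoundedContinuousFunction.toLp 2 mu1 ℝ g)) := by
  set y : HH := BoundedContinuousFunction.toLp 2 mu1 ℝ g with hy
  have hyg : (y : ℝ → ℝ) =ᵐ[mu1] g := BoundedContinuousFunction.coeFn_toLp _ _ _ g
  have hsq : Tendsto (fun n => ‖Sop n y - y‖ ^ 2) atTop (𝓝 0) := by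
    have h1 : ∀ n, ‖Sop n y - y‖ ^ 2 = ∫ t, (sf g n t - g t) ^ 2 ∂mu1 := by
      intro n
      rw [← real_inner_self_eq_norm_sq, L2.inner_def]
      apply integral_congr_ae
      filter_upwards [Lp.coeFn_sub (Sop n y) y, sf_coe y g hyg n, hyg] with t h2 h3 h4
      rw [h2, Pi.sub_apply, h3, h4]
      simp only [RCLike.inner_apply, conj_trivial]
      ring
    simp_rw [h1]
    have h0 : (0 : ℝ) = ∫ t, (0 : ℝ) ∂mu1 := by simp
    rw [h0]
    apply tendsto_integral_of_dominated_convergence (fun _ => (2 * ‖g‖) ^ 2)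
    · intro n
      have hm : Measurable (sf g n) := by
        unfold sf
        refine Finset.measurable_sum _ fun i _ => ?_
        exact ((measurable_const.indicator (II_meas n (i + 2))).const_mul _).const_mul _
      exact ((hm.sub g.continuous.measurable).pow_const 2).aestronglyMeasurable
    · exact integrable_const _
    · intro n
      refine Eventually.of_forall fun t => ?_
      rw [Real.norm_eq_abs, abs_of_nonneg (sq_nonneg _)]
      have hb1 := sf_bound g ‖g‖ (fun s => g.norm_coe_le_norm s) n t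
      have hb2 : |g t| ≤ ‖g‖ := g.norm_coe_le_norm t
      rw [← sq_abs]
      apply pow_le_pow_left₀ (abs_nonneg _)
      calc |sf g n t - g t| ≤ |sf g n t| + |g t| := abs_sub _ _
        _ ≤ 2 * ‖g‖ := by linarith
    · have h2 : ∀ᵐ t ∂mu1, t ∈ Ioc (0 : ℝ) 1 := ae_restrict_mem measurableSet_Ioc
      filter_upwards [h2] with t ht
      have h3 := ((sf_lim g g.continuous t ht).sub_const (g t)).pow 2
      simpa using h3
  rw [tendsto_iff_norm_sub_tendsto_zero]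
  have h2 := hsq.sqrt
  simpa using h2

theorem Sop_lim (x : HH) : Tendsto (fun n => Sop n x) atTop (𝓝 x) := by
  rw [Metric.tendsto_atTop]
  intro ε hε
  have hdense : DenseRange (BoundedContinuousFunction.toLp 2 mu1 ℝ :
      BoundedContinuousFunction ℝ ℝ →L[ℝ] HH) :=
    BoundedContinuousFunction.toLp_denseRange _ _ ℝ (by norm_num)
  obtain ⟨g, hg⟩ := Metric.denseRange_iff.1 hdense x (ε / 3) (by positivity)
  obtain ⟨N, hN⟩ := Metric.tendsto_atTop.1 (Sop_dense g) (ε / 3) (by positivity)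
  refine ⟨N, fun n hn => ?_⟩
  set y : HH := BoundedContinuousFunction.toLp 2 mu1 ℝ g with hy
  have h1 := hN n hn
  rw [dist_eq_norm] at h1 hg ⊢
  have h2 : ‖Sop n (x - y)‖ ≤ ‖x - y‖ := Sop_norm n _
  have h3 : Sop n x - x = Sop n (x - y) + (Sop n y - y) - (x - y) := by
    rw [map_sub]
    abel
  rw [h3]
  calc ‖Sop n (x - y) + (Sop n y - y) - (x - y)‖
      ≤ ‖Sop n (x - y) + (Sop n y - y)‖ + ‖x - y‖ := norm_sub_le _ _
    _ ≤ ‖Sop n (x - y)‖ + ‖Sop n y - y‖ + ‖x - y‖ := by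
        have := norm_add_le (Sop n (x - y)) (Sop n y - y)
        linarith
    _ < ε := by linarith

/-! ### the weights -/

/-- the logarithm of the base -/
noncomputable def Lk (k : ℕ) : ℝ := Real.log ((k : ℝ) + 2)

theorem Lk_nn (k : ℕ) : 0 ≤ Lk k := Real.log_nonneg (by
  have : (0 : ℝ) ≤ k := Nat.cast_nonneg k
  linarith)

/-- the weight -/
noncomputable def mk (k : ℕ) (t : ℝ) : ℝ := Real.exp (Lk k * (t - 1))

/-- its inverse -/
noncomputable def mi (k : ℕ) (t : ℝ) : ℝ := Real.exp (Lk k * (1 - t))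

theorem mk_meas (k : ℕ) : Measurable (mk k) := by
  unfold mk
  fun_prop

theorem mi_meas (k : ℕ) : Measurable (mi k) := by
  unfold mi
  fun_prop

theorem mk_le (k : ℕ) : ∀ t ∈ Ioc (0 : ℝ) 1, |mk k t| ≤ 1 := by
  intro t ht
  unfold mk
  rw [abs_of_pos (Real.exp_pos _)]
  apply Real.exp_le_one_iff.2
  exact mul_nonpos_of_nonneg_of_nonpos (Lk_nn k) (by linarith [ht.2])

theorem mi_le (k : ℕ) : ∀ t ∈ Ioc (0 : ℝ) 1, |mi k t| ≤ (k : ℝ) + 2 := by
  intro t ht
  unfold mi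
  rw [abs_of_pos (Real.exp_pos _)]
  have h1 : Lk k * (1 - t) ≤ Lk k := by
    have := mul_le_mul_of_nonneg_left (show 1 - t ≤ 1 by linarith [ht.1]) (Lk_nn k)
    linarith
  calc Real.exp (Lk k * (1 - t)) ≤ Real.exp (Lk k) := Real.exp_le_exp.2 h1
    _ = (k : ℝ) + 2 := by
        unfold Lk
        rw [Real.exp_log (by positivity)]

/-- the operator `J k` -/
noncomputable def Jk (k : ℕ) : HH →L[ℝ] HH := Mop (mk k) (mk_meas k) 1 (mk_le k)

/-- its inverse -/
noncomputable def Ki (k : ℕ) : HH →L[ℝ] HH := Mop (mi k) (mi_meas k) ((k : ℝ) + 2) (mi_le k)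

theorem Jk_Ki (k : ℕ) (x : HH) : Jk k (Ki k x) = x := by
  apply Mop_inv
  intro t
  unfold mk mi
  rw [← Real.exp_add]
  have : Lk k * (t - 1) + Lk k * (1 - t) = 0 := by ring
  rw [this, Real.exp_zero]

theorem Ki_Jk (k : ℕ) (x : HH) : Ki k (Jk k x) = x := by
  apply Mop_inv
  intro t
  unfold mk mi
  rw [← Real.exp_add]
  have : Lk k * (1 - t) + Lk k * (t - 1) = 0 := by ring
  rw [this, Real.exp_zero]

/-- the operator `T n k` -/
noncomputable def Tk (n k : ℕ) : HH →L[ℝ] HH := (Ki k).comp ((Sop n).comp (Jk k))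

theorem Tk_apply (n k : ℕ) (x : HH) : Tk n k x = ∑ i ∈ Finset.range (n + 1),
    inner ℝ (Jk k (ch n i)) x • (((n : ℝ) + 1) • Ki k (ch n (i + 2))) := by
  show Ki k (Sop n (Jk k x)) = _
  rw [Sop_apply, map_sum]
  refine Finset.sum_congr rfl fun i _ => ?_
  rw [map_smul, map_smul]
  congr 1
  unfold Jk
  rw [Mop_self]

theorem Tk_norm (n k : ℕ) (x : HH) : ‖Tk n k x‖ ≤ Real.exp (-(Lk k / ((n : ℝ) + 1))) * ‖x‖ := by
  have hn : (0 : ℝ) < (n : ℝ) + 1 := by positivity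
  rw [Tk_apply]
  refine block_norm (n + 1) (fun i => Jk k (ch n i))
    (fun i => ((n : ℝ) + 1) • Ki k (ch n (i + 2))) _ (Real.exp_pos _).le
    (fun i j hij => ch_orth _ _ _ _ n i j hij)
    (fun i j hij => by
      show inner ℝ (((n : ℝ) + 1) • Ki k (ch n (i + 2))) (((n : ℝ) + 1) • Ki k (ch n (j + 2))) = 0
      have h1 : inner ℝ (Ki k (ch n (i + 2))) (Ki k (ch n (j + 2))) = 0 :=
        ch_orth _ _ _ _ n (i + 2) (j + 2) (by omega)
      rw [inner_smul_left, inner_smul_right, h1]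
      simp)
    (fun i => ?_) x
  show ‖Jk k (ch n i)‖ * ‖((n : ℝ) + 1) • Ki k (ch n (i + 2))‖ ≤ _
  have h1 : ‖Jk k (ch n i)‖ ≤ Real.exp (Lk k * (((i : ℝ) + 1) / ((n : ℝ) + 1) - 1)) * ‖ch n i‖ := by
    apply ch_mul_norm
    intro t ht
    unfold mk
    rw [abs_of_pos (Real.exp_pos _)]
    apply Real.exp_le_exp.2
    apply mul_le_mul_of_nonneg_left _ (Lk_nn k)
    linarith [ht.2]
  have h2 : ‖Ki k (ch n (i + 2))‖ ≤
      Real.exp (Lk k * (1 - ((i : ℝ) + 2) / ((n : ℝ) + 1))) * ‖ch n (i + 2)‖ := by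
    apply ch_mul_norm
    intro t ht
    unfold mi
    rw [abs_of_pos (Real.exp_pos _)]
    apply Real.exp_le_exp.2
    apply mul_le_mul_of_nonneg_left _ (Lk_nn k)
    have h3 := ht.1
    push_cast at h3
    linarith
  rw [norm_smul, Real.norm_of_nonneg hn.le]
  have h3 := ch_mul_le n i (i + 2)
  have h4 : Real.exp (Lk k * (((i : ℝ) + 1) / ((n : ℝ) + 1) - 1)) *
      Real.exp (Lk k * (1 - ((i : ℝ) + 2) / ((n : ℝ) + 1))) =
      Real.exp (-(Lk k / ((n : ℝ) + 1))) := by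
    rw [← Real.exp_add]
    congr 1
    field_simp
    ring
  calc ‖Jk k (ch n i)‖ * (((n : ℝ) + 1) * ‖Ki k (ch n (i + 2))‖)
      ≤ (Real.exp (Lk k * (((i : ℝ) + 1) / ((n : ℝ) + 1) - 1)) * ‖ch n i‖) * (((n : ℝ) + 1) *
        (Real.exp (Lk k * (1 - ((i : ℝ) + 2) / ((n : ℝ) + 1))) * ‖ch n (i + 2)‖)) := by
        apply mul_le_mul h1 _ (by positivity) (by positivity)
        exact mul_le_mul_of_nonneg_left h2 hn.le
    _ = (Real.exp (Lk k * (((i : ℝ) + 1) / ((n : ℝ) + 1) - 1)) *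
        Real.exp (Lk k * (1 - ((i : ℝ) + 2) / ((n : ℝ) + 1)))) *
        (((n : ℝ) + 1) * (‖ch n i‖ * ‖ch n (i + 2)‖)) := by ring
    _ ≤ Real.exp (-(Lk k / ((n : ℝ) + 1))) * (((n : ℝ) + 1) * (1 / ((n : ℝ) + 1))) := by
        rw [h4]
        apply mul_le_mul_of_nonneg_left _ (Real.exp_pos _).le
        exact mul_le_mul_of_nonneg_left h3 hn.le
    _ = Real.exp (-(Lk k / ((n : ℝ) + 1))) := by
        field_simp

theorem Tk_op (n k : ℕ) : ‖Tk n k‖ ≤ Real.exp (-(Lk k / ((n : ℝ) + 1))) :=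
  ContinuousLinearMap.opNorm_le_bound _ (Real.exp_pos _).le (Tk_norm n k)

theorem w_norm : ‖ch 0 0‖ = 1 := by
  have h1 : inner ℝ (ch 0 0) (ch 0 0) = mu1.real (II 0 0 ∩ II 0 0) :=
    L2.real_inner_indicatorConstLp_one_indicatorConstLp_one (II_meas 0 0) (II_meas 0 0)
  rw [real_inner_self_eq_norm_sq, inter_self, II_mass 0 0 (by norm_num)] at h1
  have h2 : ‖ch 0 0‖ ^ 2 = 1 := by
    rw [h1]
    norm_num
  have h3 : 0 ≤ ‖ch 0 0‖ := norm_nonneg _
  nlinarith

theorem Jk_op (k : ℕ) : ‖Jk k‖ ≤ 1 :=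
  ContinuousLinearMap.opNorm_le_bound _ zero_le_one fun x => Mop_norm _ _ _ _ x

theorem e_norm (k : ℕ) : ‖Ki k (ch 0 0)‖ ≤ (k : ℝ) + 2 := by
  have h := Mop_norm (mi k) (mi_meas k) ((k : ℝ) + 2) (mi_le k) (ch 0 0)
  rw [w_norm, mul_one] at h
  exact h

theorem JT (n k : ℕ) : (Jk k).comp (Tk n k) = (Sop n).comp (Jk k) := by
  apply ContinuousLinearMap.ext
  intro x
  exact Jk_Ki k _

theorem Tk_one (n k : ℕ) : ‖Tk n k‖ ≤ 1 := by
  refine (Tk_op n k).trans ?_
  apply Real.exp_le_one_iff.2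
  have : 0 ≤ Lk k / ((n : ℝ) + 1) := div_nonneg (Lk_nn k) (by positivity)
  linarith

theorem fin_of_sum {H : Type} [NormedAddCommGroup H] [InnerProductSpace ℝ H] (N : ℕ)
    (T : H →L[ℝ] H) (a b : ℕ → H)
    (hT : ∀ x, T x = ∑ i ∈ Finset.range N, inner ℝ (a i) x • b i) :
    FiniteDimensional ℝ (LinearMap.range (T : H →ₗ[ℝ] H)) := by
  have hle : LinearMap.range (T : H →ₗ[ℝ] H) ≤
      Submodule.span ℝ (b '' (Finset.range N : Set ℕ)) := by
    rintro _ ⟨x, rfl⟩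
    show T x ∈ _
    rw [hT]
    refine Submodule.sum_mem _ fun i hi => ?_
    apply Submodule.smul_mem
    apply Submodule.subset_span
    exact ⟨i, hi, rfl⟩
  haveI : FiniteDimensional ℝ (Submodule.span ℝ (b '' (Finset.range N : Set ℕ))) :=
    FiniteDimensional.span_of_finite ℝ ((Finset.finite_toSet _).image b)
  exact Submodule.finiteDimensional_of_le hle

theorem Tk_fin (n k : ℕ) : FiniteDimensional ℝ (LinearMap.range (Tk n k : HH →ₗ[ℝ] HH)) :=
  fin_of_sum (n + 1) (Tk n k) (fun i => Jk k (ch n i))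
    (fun i => ((n : ℝ) + 1) • Ki k (ch n (i + 2))) (Tk_apply n k)

theorem Tk_zero (n : ℕ) : Tendsto (fun k => ‖Tk n k‖) atTop (𝓝 0) := by
  have h1 : Tendsto (fun k : ℕ => Real.exp (-(Lk k / ((n : ℝ) + 1)))) atTop (𝓝 0) := by
    have h2 : Tendsto (fun k : ℕ => Lk k) atTop atTop := by
      unfold Lk
      apply Real.tendsto_log_atTop.comp
      exact tendsto_atTop_add_const_right _ _ tendsto_natCast_atTop_atTop
    have h3 : Tendsto (fun k : ℕ => Lk k / ((n : ℝ) + 1)) atTop atTop :=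
      h2.atTop_div_const (by positivity)
    exact Real.tendsto_exp_neg_atTop_nhds_zero.comp h3
  exact squeeze_zero (fun k => norm_nonneg _) (fun k => Tk_op n k) h1

theorem Tk_lim (k : ℕ) (x : HH) : Tendsto (fun n => Tk n k x) atTop (𝓝 x) := by
  have h1 := Sop_lim (Jk k x)
  have h2 := ((Ki k).continuous.tendsto (Jk k x)).comp h1
  rw [Ki_Jk] at h2
  exact h2

theorem scl_HH : SCL HH Jk (fun k => Ki k (ch 0 0)) (ch 0 0) Sop Tk :=
  ⟨w_norm, Jk_op, fun k => Jk_Ki k _, e_norm, JT, Tk_one, Tk_fin, Tk_zero, Tk_lim⟩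

theorem sep_HH : TopologicalSpace.SeparableSpace HH := by
  haveI : Fact ((2 : ENNReal) ≠ ⊤) := ⟨by norm_num⟩
  haveI : SecondCountableTopology HH := Lp.SecondCountableTopology
  infer_instance

theorem st_SL : ST_SL :=
  ⟨HH, inferInstance, inferInstance, Jk, fun k => Ki k (ch 0 0), ch 0 0, Sop, Tk,
    inferInstance, sep_HH, scl_HH⟩

end Pool.Agent.Helper82.BQ
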